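import Pool.Agent.Lib.helper11.ETRTens

namespace Pool.Agent.Results.MP_50cd9e_lc.Exceed

open Pool.Agent.Cx Finset

/-- the spectral norm of `T` exceeds `σ` -/
def Exceeds (T : List (List (List Rq))) (σ : ℝ) : Prop :=
  ∃ x y z : Fin T.length → ℝ, ∑ i, x i ^ 2 = 1 ∧ ∑ i, y i ^ 2 = 1 ∧ ∑ i, z i ^ 2 = 1 ∧
    σ < |∑ i : Fin T.length, ∑ j : Fin T.length, ∑ k : Fin T.length, tent T i j k * x i * y j * z k|

theorem result : ERHard (Lang fun p : List (List (List Rq)) × Rq =>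
    Cube p.1 ∧ 0 < p.2.val ∧ Exceeds p.1 p.2.val) := by
  obtain ⟨g, hg, h⟩ := rh_bam
  refine RH.erHard ⟨fun s => tens 1 (g s), (tens_pt 1).comp hg, fun s => ?_⟩
  have e : (tens 1 (g s)).1.length = 2 * nn (g s) * (2 * nn (g s)) := tens0_len _ _ _ _ _
  have e' : (tens 1 (g s)).2.val = lam (g s) := by simp [tens, rq_val]
  have c : ∀ {n : ℕ} (f : Fin n → Fin n → Fin n → ℝ) (z : Fin n → ℝ),
      ∑ i, ∑ j, ∑ k, f i j k * z k = ∑ k, (∑ i, ∑ j, f i j k) * z k := fun f z => by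
    simp only [sum_mul]
    exact (sum_congr rfl fun i _ => sum_comm).trans sum_comm
  simp only [Exceeds, e', c]
  constructor
  · intro hs
    obtain ⟨x, z, h1, h2, h3, -⟩ := tens_complete _ ((h s).1 hs)
    rw [← e] at h1 h2 h3
    simp only [← Fin.sum_univ_eq_sum_range] at h1 h2 h3
    exact ⟨tens0_cube _ _ _ _ _, by unfold lam; positivity, fun i => x i, fun i => x i, fun i => z i,
      h1, h1, h2, h3.trans_le (le_abs_self _)⟩
  · rintro ⟨-, -, x, y, z, h1, h2, h3, h4⟩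
    refine (h s).2 (tens_sound 1 _ le_rfl
      (x := fun i => if h : i < _ then x ⟨i, h⟩ else 0) (y := fun i => if h : i < _ then y ⟨i, h⟩ else 0)
      (z := fun i => if h : i < _ then z ⟨i, h⟩ else 0) ?_ ?_ ?_ ?_) <;> rw [← e] <;>
      simp only [← Fin.sum_univ_eq_sum_range, Fin.is_lt, dif_pos, Fin.eta, h1, h2, h3, h4.le]

end Pool.Agent.Results.MP_50cd9e_lc.Exceed
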